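import Pool.Agent.Helper7.KT.St

/-! # KT LNK: neighbourhoods -/

set_option autoImplicit false

namespace Pool.Agent.Helper53.KT

open Finset SimpleGraph Filter Topology
open EX Pool.Agent.Helper7.KT

open scoped Classical

/-- Proof of `StLNK`. -/
theorem hLNK : StLNK := by
  intro V Γ a t S v hv hK A hA hc
  have hvA : v ∉ A := by
    intro h
    have h1 := hA h
    simp only [nb, mem_filter] at h1
    exact Γ.loopless.irrefl v h1.2
  have hsub : insert v A ⊆ S := by
    intro x hx
    rw [mem_insert] at hx
    rcases hx with rfl | hx
    · exact hv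
    · have h1 := hA hx
      simp only [nb, mem_filter] at h1
      exact h1.1
  have hcard : (insert v A).card = a + 1 := by
    rw [card_insert_of_notMem hvA, hc]
  refine lt_of_le_of_lt (card_le_card ?_) (hK (insert v A) hsub hcard)
  intro x hx
  simp only [nb, mem_filter] at hx ⊢
  refine ⟨hx.1.1, ?_⟩
  intro y hy
  rw [mem_insert] at hy
  rcases hy with rfl | hy
  · exact hx.1.2.symm
  · exact hx.2 y hy

end Pool.Agent.Helper53.KT
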